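import Pool.Agent.H58.JU.Targets

/-!
Row CMH of jun_modules (MP_6a7a6f_gt): continuity of the projection to the quaternionic projective
space.
-/

set_option autoImplicit false

open Topology
open scoped Quaternion

namespace Pool.Agent.H86.JU

open Pool.Agent.H58.JU Pool.Agent.H58.FL
open Pool.Agent.H48.FR (HPn PP hp nrm pd)

noncomputable section

theorem pf_CMH : T_CMH := by
  intro A _ n v hv hc
  rw [continuous_iff_continuousAt]
  intro a0
  unfold ContinuousAt
  rw [tendsto_iff_dist_tendsto_zero]
  have h1 : (fun a => dist (PP.mk (v a) (hv a) : HPn n) (PP.mk (v a0) (hv a0) : HPn n)) =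
      fun a => Real.arccos (‖hp (v a) (v a0)‖ / (nrm (v a) * nrm (v a0))) := by
    funext a
    exact Pool.Agent.H48.FR.dist_mk (hv a) (hv a0)
  rw [h1]
  have hhp : Continuous fun a => ‖hp (v a) (v a0)‖ := by
    unfold hp
    refine continuous_norm.comp (continuous_finsetSum _ fun i _ => ?_)
    exact ((continuous_apply i).comp hc).mul continuous_const
  have hn : Continuous fun a => nrm (v a) := by
    unfold nrm
    refine Real.continuous_sqrt.comp (continuous_finsetSum _ fun i _ => ?_)
    exact (continuous_norm.comp ((continuous_apply i).comp hc)).pow 2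
  have hne : nrm (v a0) ≠ 0 := fun h => hv a0 ((Pool.Agent.H48.FR.nrm_eq_zero_iff _).1 h)
  have h2 : ContinuousAt
      (fun a => Real.arccos (‖hp (v a) (v a0)‖ / (nrm (v a) * nrm (v a0)))) a0 := by
    refine Real.continuous_arccos.continuousAt.comp ?_
    exact hhp.continuousAt.div (hn.mul continuous_const).continuousAt (mul_ne_zero hne hne)
  have h3 : Real.arccos (‖hp (v a0) (v a0)‖ / (nrm (v a0) * nrm (v a0))) = 0 :=
    Pool.Agent.H48.FR.pd_self (hv a0)
  have h4 := h2.tendsto
  rw [h3] at h4
  exact h4

end

end Pool.Agent.H86.JU
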