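import Pool.Agent.H58.JU.Targets
import Pool.Agent.H67.FL.PUN

/-!
Row PNN of jun_modules (MP_6a7a6f_gt): the punctured space has nonzero homology.
-/

set_option autoImplicit false

open Topology

namespace Pool.Agent.H86.JU

open Pool.Agent.H58.JU Pool.Agent.H58.FL Pool.Agent.H59 Pool.Agent.H48.FR Pool.Agent.H67.FL

noncomputable section

/-- the punctured space is a retract of the intersection -/
theorem ret2 (m : ℕ) : ∃ (f : C(Pn m, ↥(Oo m 1 ∩ Oo m (-1))))
    (g : C(↥(Oo m 1 ∩ Oo m (-1)), Pn m)), g.comp f = ContinuousMap.id _ := by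
  have hmem : ∀ x : Pn (m + 1), x ∈ Oo m 1 ∩ Oo m (-1) ↔ ∃ i : Fin m, x.1 i.castSucc ≠ 0 := by
    intro x
    constructor
    · rintro ⟨h1 | h1, h2 | h2⟩
      · exact h1
      · exact h1
      · exact h2
      · exfalso
        linarith
    · intro h
      exact ⟨Or.inl h, Or.inl h⟩
  let g : C(↥(Oo m 1 ∩ Oo m (-1)), Pn m) := ⟨fun x => ⟨fun i => x.1.1 i.castSucc, fun h0 => by
      obtain ⟨i, hi⟩ := (hmem x.1).1 x.2
      exact hi (congrFun h0 i)⟩, by
    refine cont_mk _ (continuous_pi fun i => ?_) _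
    exact (continuous_apply _).comp ((cont_val _).comp continuous_subtype_val)⟩
  have hsn : ∀ (y : Pn m), ∃ i : Fin m,
      (Fin.snoc y.1 (0 : ℝ) : Fin (m + 1) → ℝ) i.castSucc ≠ 0 := by
    intro y
    by_contra h
    push Not at h
    apply y.2
    funext i
    have := h i
    rwa [Fin.snoc_castSucc] at this
  have hsc : Continuous fun p : (Fin m → ℝ) => (Fin.snoc p (0 : ℝ) : Fin (m + 1) → ℝ) := by
    refine continuous_pi fun i => ?_
    refine Fin.lastCases ?_ (fun i => ?_) i
    · simp only [Fin.snoc_last]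
      exact continuous_const
    · simp only [Fin.snoc_castSucc]
      exact continuous_apply i
  have hne : ∀ (y : Pn m), (Fin.snoc y.1 (0 : ℝ) : Fin (m + 1) → ℝ) ≠ 0 := by
    intro y h0
    obtain ⟨i, hi⟩ := hsn y
    exact hi (congrFun h0 _)
  let f : C(Pn m, ↥(Oo m 1 ∩ Oo m (-1))) :=
    ⟨fun p => ⟨⟨Fin.snoc p.1 (0 : ℝ), hne p⟩, (hmem _).2 (hsn p)⟩,
      Continuous.subtype_mk (cont_mk _ (hsc.comp (cont_val _)) _) _⟩
  refine ⟨f, g, ContinuousMap.ext fun y => Subtype.ext (funext fun i => ?_)⟩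
  show (Fin.snoc y.1 (0 : ℝ) : Fin (m + 1) → ℝ) i.castSucc = y.1 i
  rw [Fin.snoc_castSucc]

theorem pf_PNN (hMVI : T_MVI) (hHEQ : T_HEQ) (hCTR : T_CTR) : T_PNN := by
  intro m
  induction m with
  | zero =>
    have h : IsEmpty (Pn 0) := ⟨fun x => x.2 (Subsingleton.elim _ _)⟩
    intro hv
    obtain ⟨b, hb⟩ := hv (Finsupp.single (eps (Pn 0)) 1) trivial
    have hE : IsEmpty (Smp (0 + 1) (Pn 0)) := ⟨fun σ => by
      have x : Dl (0 + 1) := ⟨Pi.single 0 1, single_mem_stdSimplex ℝ 0⟩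
      exact IsEmpty.false (σ x)⟩
    have hb0 : b = 0 := by
      ext σ
      exact (hE.false σ).elim
    rw [hb0, map_zero] at hb
    have h1 := DFunLike.congr_fun hb (eps (Pn 0))
    rw [Finsupp.single_eq_same] at h1
    exact zero_ne_one h1
  | succ m ih =>
    intro hv
    apply ih
    have hcov : Oo m 1 ∪ Oo m (-1) = Set.univ := by
      rw [Set.eq_univ_iff_forall]
      intro x
      by_cases h : ∃ i : Fin m, x.1 i.castSucc ≠ 0
      · exact Or.inl (Or.inl h)
      · push Not at h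
        have h1 : x.1 (Fin.last m) ≠ 0 := by
          intro h2
          apply x.2
          funext i
          refine Fin.lastCases ?_ (fun i => ?_) i
          · exact h2
          · exact h i
        rcases lt_or_gt_of_ne h1 with h2 | h2
        · refine Or.inr (Or.inr ?_)
          linarith
        · refine Or.inl (Or.inr ?_)
          linarith
    have h1 : Van m ↥(Oo m 1 ∩ Oo m (-1)) :=
      hMVI (Pn (m + 1)) (Oo m 1) (Oo m (-1)) (isOpen_Oo m 1) (isOpen_Oo m (-1)) hcov m
        (van_Oo hHEQ hCTR m 1 (by norm_num) m) (van_Oo hHEQ hCTR m (-1) (by norm_num) m) hv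
    obtain ⟨f, g, hfg⟩ := ret2 m
    exact (hHEQ _ _ f g (by rw [hfg]) m).1 h1

end

end Pool.Agent.H86.JU
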